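import Mathlib

namespace Pool.Agent.Results.MP_8dd54d_co.PlaneCase

open Function Set

/-! ### Unit circles seen from above cross at most once -/

lemma g_conc {p s a b : ℝ} (hp : p ^ 2 ≤ 1) (hs : s ^ 2 ≤ 1) (ha : 0 ≤ a) (hb : 0 ≤ b)
    (hab : a + b = 1) :
    a * √(1 - p ^ 2) + b * √(1 - s ^ 2) ≤ √(1 - (a * p + b * s) ^ 2) := by
  have hP : √(1 - p ^ 2) ^ 2 = 1 - p ^ 2 := Real.sq_sqrt (by linarith)
  have hS : √(1 - s ^ 2) ^ 2 = 1 - s ^ 2 := Real.sq_sqrt (by linarith)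
  have hP0 := Real.sqrt_nonneg (1 - p ^ 2)
  have hS0 := Real.sqrt_nonneg (1 - s ^ 2)
  set P := √(1 - p ^ 2)
  set S := √(1 - s ^ 2)
  apply Real.le_sqrt_of_sq_le
  have hb' : b = 1 - a := by linarith
  subst hb'
  have h1 : 1 - (a * p + (1 - a) * s) ^ 2 - (a * P + (1 - a) * S) ^ 2 =
      a * (1 - a) * ((p - s) ^ 2 + (P - S) ^ 2) := by
    linear_combination (-a) * hP - (1 - a) * hS
  have h2 : 0 ≤ a * (1 - a) * ((p - s) ^ 2 + (P - S) ^ 2) := by positivity
  linarith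

lemma g4 {p q r s : ℝ} (hp : p ^ 2 ≤ 1) (hs : s ^ 2 ≤ 1) (hpq : p ≤ q) (hqs : q ≤ s)
    (hr : r = p + s - q) :
    √(1 - p ^ 2) + √(1 - s ^ 2) ≤ √(1 - q ^ 2) + √(1 - r ^ 2) := by
  rcases eq_or_lt_of_le (hpq.trans hqs) with h | h
  · have h1 : q = p := le_antisymm (by linarith) hpq
    subst h1
    subst h
    rw [hr]
    simp
  · set a := (s - q) / (s - p) with ha
    have hsp : 0 < s - p := by linarith
    have ha0 : 0 ≤ a := div_nonneg (by linarith) hsp.le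
    have ha1 : 0 ≤ 1 - a := by
      have : a ≤ 1 := by
        rw [ha, div_le_one hsp]
        linarith
      linarith
    have e1 : a * p + (1 - a) * s = q := by
      rw [ha]
      field_simp
      ring
    have e2 : (1 - a) * p + a * s = r := by
      rw [hr, ← e1]
      ring
    have h1 := g_conc hp hs ha0 ha1 (by ring)
    have h2 := g_conc hp hs ha1 ha0 (by ring)
    rw [e1] at h1
    rw [e2] at h2
    nlinarith

lemma cross {a1 a2 b1 b2 v h v' h' : ℝ} (hab : a1 ≤ b1) (hv : v ≤ v')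
    (hb : (v - b1) ^ 2 + (h - b2) ^ 2 ≤ 1) (ha : 1 < (v - a1) ^ 2 + (h - a2) ^ 2)
    (hha : 0 < h - a2) (ha' : (v' - a1) ^ 2 + (h' - a2) ^ 2 ≤ 1)
    (hb' : 1 < (v' - b1) ^ 2 + (h' - b2) ^ 2) (hhb : 0 < h' - b2) : False := by
  have hp : (v - b1) ^ 2 ≤ 1 := by nlinarith [sq_nonneg (h - b2)]
  have hs : (v' - a1) ^ 2 ≤ 1 := by nlinarith [sq_nonneg (h' - a2)]
  have k1 : h - b2 ≤ √(1 - (v - b1) ^ 2) :=
    le_of_abs_le (Real.abs_le_sqrt (by linarith))
  have k2 : h' - a2 ≤ √(1 - (v' - a1) ^ 2) :=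
    le_of_abs_le (Real.abs_le_sqrt (by linarith))
  have k3 : √(1 - (v - a1) ^ 2) < h - a2 := by
    rw [Real.sqrt_lt' hha]
    linarith
  have k4 : √(1 - (v' - b1) ^ 2) < h' - b2 := by
    rw [Real.sqrt_lt' hhb]
    linarith
  have k5 := g4 (p := v - b1) (q := v - a1) (r := v' - b1) (s := v' - a1) hp hs
    (by linarith) (by linarith) (by ring)
  linarith

/-- Three unit circles cannot be shattered from above. -/
lemma no_shatter_coord (x k : Fin 3 → ℝ)
    (H : ∀ P : Fin 3 → Bool, (∃ i, P i = true) → (∃ j, P j = false) →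
      ∃ v h : ℝ, (∀ i, (v - x i) ^ 2 + (h - k i) ^ 2 ≤ 1 ↔ P i = true) ∧ ∀ i, 0 < h - k i) :
    False := by
  set σ := Tuple.sort x
  have hm := Tuple.monotone_sort x
  have h01 : x (σ 0) ≤ x (σ 1) := hm (by decide : (0 : Fin 3) ≤ 1)
  have h12 : x (σ 1) ≤ x (σ 2) := hm (by decide : (1 : Fin 3) ≤ 2)
  have n01 : σ 0 ≠ σ 1 := fun h => by simpa using σ.injective h
  have n21 : σ 2 ≠ σ 1 := fun h => by simpa using σ.injective h
  obtain ⟨v, h, hp, hh⟩ := H (fun i => decide (i = σ 1)) ⟨σ 1, by simp⟩ ⟨σ 0, by simp⟩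
  obtain ⟨v', h', hp', hh'⟩ := H (fun i => decide (i ≠ σ 1)) ⟨σ 0, by simp⟩
    ⟨σ 1, by simp⟩
  have y1 : (v - x (σ 1)) ^ 2 + (h - k (σ 1)) ^ 2 ≤ 1 := (hp _).2 (by simp)
  have y0 : 1 < (v - x (σ 0)) ^ 2 + (h - k (σ 0)) ^ 2 := by
    rw [← not_le, hp]
    simp
  have y2 : 1 < (v - x (σ 2)) ^ 2 + (h - k (σ 2)) ^ 2 := by
    rw [← not_le, hp]
    simp
  have z0 : (v' - x (σ 0)) ^ 2 + (h' - k (σ 0)) ^ 2 ≤ 1 := (hp' _).2 (by simp)
  have z2 : (v' - x (σ 2)) ^ 2 + (h' - k (σ 2)) ^ 2 ≤ 1 := (hp' _).2 (by simp)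
  have z1 : 1 < (v' - x (σ 1)) ^ 2 + (h' - k (σ 1)) ^ 2 := by
    rw [← not_le, hp']
    simp
  rcases le_total v v' with hv | hv
  · exact cross h01 hv y1 y0 (hh _) z0 z1 (hh' _)
  · exact cross h12 hv z2 z1 (hh' _) y1 y2 (hh _)

abbrev E := EuclideanSpace ℝ (Fin 2)

lemma dist_sq_two (y a : E) : dist y a ^ 2 = (y 0 - a 0) ^ 2 + (y 1 - a 1) ^ 2 := by
  rw [EuclideanSpace.dist_eq, Real.sq_sqrt (by positivity)]
  simp [Fin.sum_univ_two, Real.dist_eq, sq_abs]

lemma inner_two (y a : E) : inner ℝ y a = y 0 * a 0 + y 1 * a 1 := by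
  simp [PiLp.inner_apply, Fin.sum_univ_two, mul_comm]

lemma no_shatter (t : Fin 3 → E) (ζ : E) (hζ : ζ ≠ 0)
    (H : ∀ P : Fin 3 → Bool, (∃ i, P i = true) → (∃ j, P j = false) →
      ∃ y : E, (∀ i, dist y (t i) ≤ 1 ↔ P i = true) ∧ ∀ i, 0 < inner ℝ (y - t i) ζ) :
    False := by
  have hn : 0 < ‖ζ‖ := norm_pos_iff.2 hζ
  have hn2 : ‖ζ‖ ^ 2 = ζ 0 ^ 2 + ζ 1 ^ 2 := by
    rw [← real_inner_self_eq_norm_sq, inner_two]
    ring
  set n := ‖ζ‖ with hnn
  apply no_shatter_coord (fun i => (t i 0 * ζ 1 - t i 1 * ζ 0) / n)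
    (fun i => (t i 0 * ζ 0 + t i 1 * ζ 1) / n)
  intro P h1 h2
  obtain ⟨y, hy1, hy2⟩ := H P h1 h2
  refine ⟨(y 0 * ζ 1 - y 1 * ζ 0) / n, (y 0 * ζ 0 + y 1 * ζ 1) / n, ?_, ?_⟩
  · intro i
    rw [← hy1 i]
    have e : ((y 0 * ζ 1 - y 1 * ζ 0) / n - (t i 0 * ζ 1 - t i 1 * ζ 0) / n) ^ 2 +
        ((y 0 * ζ 0 + y 1 * ζ 1) / n - (t i 0 * ζ 0 + t i 1 * ζ 1) / n) ^ 2 =
        dist y (t i) ^ 2 := by
      rw [dist_sq_two]
      have hn0 : n ≠ 0 := hn.ne'
      field_simp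
      rw [hn2]
      ring
    rw [e]
    exact sq_le_one_iff₀ dist_nonneg
  · intro i
    have h3 := hy2 i
    rw [inner_two] at h3
    have e : (y 0 * ζ 0 + y 1 * ζ 1) / n - (t i 0 * ζ 0 + t i 1 * ζ 1) / n =
        ((y - t i) 0 * ζ 0 + (y - t i) 1 * ζ 1) / n := by
      simp
      ring
    rw [e]
    exact div_pos h3 hn

/-- A small shattered cluster is near the common point of the unit discs. -/
lemma near (t : Fin 3 → E) (z : E) (hcl : ∀ i, dist (t i) (t 0) ≤ 1 / 200)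
    (H : ∀ P : Fin 3 → Bool, (∃ i, P i = true) → (∃ j, P j = false) →
      ∃ y : E, (∀ i, dist y (t i) ≤ 1 ↔ P i = true) ∧ dist y z ≤ 1) :
    dist z (t 0) < 1 / 4 := by
  by_contra hcon
  push Not at hcon
  have hz0 : z - t 0 ≠ 0 := by
    intro h
    rw [sub_eq_zero] at h
    rw [h, dist_self] at hcon
    norm_num at hcon
  refine no_shatter t (z - t 0) hz0 (fun P h1 h2 => ?_)
  obtain ⟨y, hy, hyz⟩ := H P h1 h2
  refine ⟨y, hy, fun i => ?_⟩
  obtain ⟨i0, hi0⟩ := h1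
  obtain ⟨j0, hj0⟩ := h2
  have a1 : dist y (t i0) ≤ 1 := (hy i0).2 hi0
  have a2 : 1 < dist y (t j0) := by
    rw [← not_le, hy, hj0]
    simp
  have b1 : dist y (t 0) ≤ 1 + 1 / 200 := by
    have := dist_triangle y (t i0) (t 0)
    linarith [hcl i0]
  have b2 : 1 - 1 / 200 < dist y (t 0) := by
    have := dist_triangle y (t 0) (t j0)
    rw [dist_comm (t 0) (t j0)] at this
    linarith [hcl j0]
  have b3 : dist z (t 0) ≤ 3 := by
    have := dist_triangle z y (t 0)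
    rw [dist_comm z y] at this
    linarith
  have c1 : inner ℝ (y - t 0) (z - t 0) =
      (dist y (t 0) ^ 2 + dist z (t 0) ^ 2 - dist y z ^ 2) / 2 := by
    have key : dist y z ^ 2 = dist y (t 0) ^ 2 - 2 * inner ℝ (y - t 0) (z - t 0) +
        dist z (t 0) ^ 2 := by
      rw [dist_eq_norm y z, show y - z = (y - t 0) - (z - t 0) by abel, norm_sub_sq_real,
        ← dist_eq_norm, ← dist_eq_norm]
    rw [key]
    ring
  have c2 : inner ℝ (t i - t 0) (z - t 0) ≤ 1 / 200 * 3 := by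
    refine (real_inner_le_norm _ _).trans ?_
    rw [← dist_eq_norm, ← dist_eq_norm]
    exact mul_le_mul (hcl i) b3 dist_nonneg (by norm_num)
  have c3 : inner ℝ (y - t i) (z - t 0) =
      inner ℝ (y - t 0) (z - t 0) - inner ℝ (t i - t 0) (z - t 0) := by
    rw [← inner_sub_left]
    congr 1
    abel
  rw [c3, c1]
  have d1 : dist y z ^ 2 ≤ 1 := by
    rw [sq_le_one_iff₀ dist_nonneg]
    exact hyz
  have d2 : (1 - 1 / 200 : ℝ) ^ 2 ≤ dist y (t 0) ^ 2 := by
    apply pow_le_pow_left₀ (by norm_num) b2.le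
  have d3 : (1 / 4 : ℝ) ^ 2 ≤ dist z (t 0) ^ 2 := pow_le_pow_left₀ (by norm_num) hcon 2
  nlinarith

/-- Triples of elements with a pattern. -/
abbrev Tri (A : Type) := (Fin 3 → A) × (Fin 3 → Bool)

def Rel {A : Type} (pA : A → E) (pT : Tri A → E) : Prop :=
  ∀ t : Fin 3 → A, Injective t → ∀ P i, dist (pT (t, P)) (pA (t i)) ≤ 1 ↔ P i = true

lemma helly_pt {A : Type} [Fintype A] (pA : A → E) (pT : Tri A → E) (h : Rel pA pT)
    (hc : 3 ≤ Fintype.card A) : ∃ w : E, ∀ x, dist (pA x) w ≤ 1 := by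
  classical
  have key : (⋂ x ∈ (Finset.univ : Finset A), Metric.closedBall (pA x) 1).Nonempty := by
    refine Convex.helly_theorem (𝕜 := ℝ) ?_ (fun i _ => convex_closedBall _ _) ?_
    · rw [finrank_euclideanSpace_fin, Finset.card_univ]
      exact hc
    · intro I _ hI
      rw [finrank_euclideanSpace_fin] at hI
      set t : Fin 3 → A := fun i => ((I.equivFinOfCardEq hI).symm i : A) with ht
      have hinj : Injective t := Subtype.val_injective.comp (Equiv.injective _)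
      refine ⟨pT (t, fun _ => true), ?_⟩
      simp only [mem_iInter, Metric.mem_closedBall]
      intro x hx
      have e : t (I.equivFinOfCardEq hI ⟨x, hx⟩) = x := by
        simp [ht]
      rw [← e]
      exact (h t hinj _ _).2 rfl
  obtain ⟨w, hw⟩ := key
  simp only [mem_iInter, Metric.mem_closedBall, Finset.mem_univ, true_implies] at hw
  exact ⟨w, fun x => by rw [dist_comm]; exact hw x⟩

lemma pigeon : ∃ m : ℕ, ∀ (J : Type) [Fintype J] (f : J → E) (c : E) (k : ℕ),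
    (∀ j, dist (f j) c ≤ 1) → m * k < Fintype.card J →
    ∃ e : Fin (k + 1) → J, Injective e ∧ ∀ a b, dist (f (e a)) (f (e b)) ≤ 1 / 200 := by
  classical
  obtain ⟨T, -, hT, hcov⟩ := (isCompact_closedBall (0 : E) 1).finite_cover_balls
    (by norm_num : (0 : ℝ) < 1 / 400)
  refine ⟨hT.toFinset.card, fun J _ f c k hf hk => ?_⟩
  have h1 : ∀ j, ∃ g ∈ T, dist (f j - c) g < 1 / 400 := by
    intro j
    have : f j - c ∈ Metric.closedBall (0 : E) 1 := by
      rw [Metric.mem_closedBall, dist_zero_right, ← dist_eq_norm]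
      exact hf j
    have h2 := hcov this
    simp only [mem_iUnion, Metric.mem_ball] at h2
    obtain ⟨g, hg, hd⟩ := h2
    exact ⟨g, hg, hd⟩
  choose g hg hd using h1
  obtain ⟨y, -, hy⟩ := Finset.exists_lt_card_fiber_of_mul_lt_card_of_maps_to
    (s := (Finset.univ : Finset J)) (t := hT.toFinset) (f := g) (n := k)
    (fun a _ => hT.mem_toFinset.2 (hg a)) (by rw [Finset.card_univ]; exact hk)
  set S := Finset.univ.filter (fun x => g x = y) with hS
  refine ⟨fun i => (S.equivFin.symm (Fin.castLE hy i) : J), ?_, ?_⟩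
  · exact Subtype.val_injective.comp ((Equiv.injective _).comp (Fin.castLE_injective _))
  · have h3 : ∀ i : Fin (k + 1), g (S.equivFin.symm (Fin.castLE hy i) : J) = y := by
      intro i
      exact (Finset.mem_filter.1 (S.equivFin.symm (Fin.castLE hy i)).2).2
    intro a b
    set ja : J := (S.equivFin.symm (Fin.castLE hy a) : J)
    set jb : J := (S.equivFin.symm (Fin.castLE hy b) : J)
    have e1 := hd ja
    have e2 := hd jb
    rw [h3 a] at e1
    rw [h3 b, dist_comm] at e2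
    have e3 := dist_triangle (f ja - c) y (f jb - c)
    rw [dist_sub_right] at e3
    linarith

lemma far (t : Fin 3 → E) (hcl : ∀ i, dist (t i) (t 0) ≤ 1 / 200) (P : Fin 3 → Bool)
    (hP : ∃ j, P j = false) (y : E) (hy : ∀ i, dist y (t i) ≤ 1 ↔ P i = true) :
    1 - 1 / 200 < dist y (t 0) := by
  obtain ⟨j0, hj0⟩ := hP
  have a2 : 1 < dist y (t j0) := by
    rw [← not_le, hy, hj0]
    simp
  have := dist_triangle y (t 0) (t j0)
  rw [dist_comm (t 0) (t j0)] at this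
  linarith [hcl j0]

/-- A small shattered cluster: some witness is far from `w`. -/
lemma witness_far (t : Fin 3 → E) (w : E) (hcl : ∀ i, dist (t i) (t 0) ≤ 1 / 200)
    (H : ∀ P : Fin 3 → Bool, (∃ i, P i = true) → (∃ j, P j = false) →
      ∃ y : E, (∀ i, dist y (t i) ≤ 1 ↔ P i = true) ∧ dist w y < 1 / 4) : False := by
  have hfar : ∀ P : Fin 3 → Bool, (∃ j, P j = false) → ∀ y : E,
      (∀ i, dist y (t i) ≤ 1 ↔ P i = true) → dist w y < 1 / 4 →
      1 - 1 / 200 - 1 / 4 < dist w (t 0) := by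
    intro P hP y hy hwy
    have h1 := far t hcl P hP y hy
    have h2 := dist_triangle y w (t 0)
    rw [dist_comm y w] at h2
    linarith
  have hz : w - t 0 ≠ 0 := by
    obtain ⟨y, hy, hwy⟩ := H ![true, false, false] ⟨0, rfl⟩ ⟨1, rfl⟩
    have h1 := hfar _ ⟨1, rfl⟩ y hy hwy
    intro h
    rw [sub_eq_zero] at h
    rw [h, dist_self] at h1
    norm_num at h1
  refine no_shatter t (w - t 0) hz (fun P h1 h2 => ?_)
  obtain ⟨y, hy, hwy⟩ := H P h1 h2
  refine ⟨y, hy, fun i => ?_⟩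
  have h3 := hfar P h2 y hy hwy
  have e : y - t i = (w - t 0) - (w - y) - (t i - t 0) := by abel
  rw [e, inner_sub_left, inner_sub_left, real_inner_self_eq_norm_sq]
  have c1 : inner ℝ (w - y) (w - t 0) ≤ 1 / 4 * ‖w - t 0‖ := by
    refine (real_inner_le_norm _ _).trans ?_
    refine mul_le_mul_of_nonneg_right ?_ (norm_nonneg _)
    rw [← dist_eq_norm]
    exact hwy.le
  have c2 : inner ℝ (t i - t 0) (w - t 0) ≤ 1 / 200 * ‖w - t 0‖ := by
    refine (real_inner_le_norm _ _).trans ?_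
    refine mul_le_mul_of_nonneg_right ?_ (norm_nonneg _)
    rw [← dist_eq_norm]
    exact hcl i
  rw [dist_eq_norm w (t 0)] at h3
  nlinarith

lemma card_tri {A : Type} [Fintype A] (h : 3 ≤ Fintype.card A) : 3 ≤ Fintype.card (Tri A) := by
  refine h.trans (Fintype.card_le_of_injective (fun a : A => ((fun _ => a, fun _ => true) : Tri A))
    (fun a b hab => ?_))
  exact congrFun (congrArg Prod.fst hab) 0

lemma core : ∃ N : ℕ, ∀ (p0 : Fin N → E) (p1 : Tri (Fin N) → E) (p2 : Tri (Tri (Fin N)) → E)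
    (p3 : Tri (Tri (Tri (Fin N))) → E), Rel p0 p1 → Rel p1 p2 → Rel p2 p3 → False := by
  obtain ⟨m, hm⟩ := pigeon
  obtain ⟨N, hN⟩ : ∃ N, N = m * (2 * m + 2) + 3 := ⟨_, rfl⟩
  refine ⟨N, ?_⟩
  intro p0 p1 p2 p3 r1 r2 r3
  have c0 : 3 ≤ Fintype.card (Fin N) := by rw [Fintype.card_fin]; omega
  obtain ⟨w0, hw0⟩ := helly_pt p0 p1 r1 c0
  obtain ⟨w1, hw1⟩ := helly_pt p1 p2 r2 (card_tri c0)
  obtain ⟨w2, hw2⟩ := helly_pt p2 p3 r3 (card_tri (card_tri c0))
  obtain ⟨e, he, hed⟩ := hm (Fin N) p0 w0 (2 * m + 2) hw0 (by rw [Fintype.card_fin]; omega)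
  set tr : Fin (2 * m + 1) → Fin 3 → Fin N := fun j =>
    ![e ⟨0, by omega⟩, e ⟨1, by omega⟩, e ⟨j + 2, by omega⟩] with htr
  have htri : ∀ j, Injective (tr j) := by
    intro j a b hab
    fin_cases a <;> fin_cases b <;> simp [htr, he.eq_iff] at hab ⊢
  have htrj : Injective tr := by
    intro a b hab
    have := congrFun hab 2
    simp only [htr, Matrix.cons_val] at this
    have h2 := he this
    simp only [Fin.mk.injEq] at h2
    exact Fin.ext (by omega)
  have hcl : ∀ j i, dist (p0 (tr j i)) (p0 (tr j 0)) ≤ 1 / 200 := by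
    intro j i
    fin_cases i <;> exact hed _ _
  by_cases hc : ∀ j, ∃ P : Fin 3 → Bool, 1 / 4 ≤ dist w2 (p1 (tr j, P))
  · choose P hP using hc
    obtain ⟨g, hg, hgd⟩ := hm (Fin (2 * m + 1)) (fun j => p1 (tr j, P j)) w1 2
      (fun j => hw1 _) (by rw [Fintype.card_fin]; omega)
    have hinj : Injective (fun a : Fin 3 => ((tr (g a), P (g a)) : Tri (Fin N))) := by
      intro a b hab
      exact hg (htrj (congrArg Prod.fst hab))
    have := near (fun a : Fin 3 => p1 (tr (g a), P (g a))) w2 (fun i => hgd i 0)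
      (fun Q _ _ => ⟨p2 (fun a : Fin 3 => ((tr (g a), P (g a)) : Tri (Fin N)), Q),
        fun i => r2 _ hinj Q i, hw2 _⟩)
    linarith [hP (g 0)]
  · push Not at hc
    obtain ⟨j, hj⟩ := hc
    exact witness_far (fun i => p0 (tr j i)) w2 (hcl j)
      (fun Q _ _ => ⟨p1 (tr j, Q), fun i => r1 _ (htri j) Q i, hj Q⟩)

/-! ### The graph -/

/-- Vertices of the construction: four levels. -/
abbrev V (N : ℕ) := Fin N ⊕ Tri (Fin N) ⊕ Tri (Tri (Fin N)) ⊕ Tri (Tri (Tri (Fin N)))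

/-- The three lower neighbours of a vertex with their marks. -/
def nb {N : ℕ} : V N → Fin 3 → Option (V N × Bool)
  | .inl _, _ => none
  | .inr (.inl x), i => some (.inl (x.1 i), x.2 i)
  | .inr (.inr (.inl x)), i => some (.inr (.inl (x.1 i)), x.2 i)
  | .inr (.inr (.inr x)), i => some (.inr (.inr (.inl (x.1 i))), x.2 i)

def lev {N : ℕ} : V N → ℕ
  | .inl _ => 0
  | .inr (.inl _) => 1
  | .inr (.inr (.inl _)) => 2
  | .inr (.inr (.inr _)) => 3

lemma lev_nb {N : ℕ} {u v : V N} {i : Fin 3} {b : Bool} (h : nb u i = some (v, b)) :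
    lev u = lev v + 1 := by
  rcases u with u | u | u | u <;> simp [nb] at h <;> rw [← h.1] <;> rfl

def gr (N : ℕ) : SimpleGraph (V N) where
  Adj u v := (∃ i b, nb u i = some (v, b)) ∨ (∃ i b, nb v i = some (u, b))
  symm := ⟨fun _ _ h => h.symm⟩
  loopless := ⟨by
    rintro u (⟨i, b, h⟩ | ⟨i, b, h⟩) <;>
    · have := lev_nb h
      omega⟩

def sh (N : ℕ) : SimpleGraph (V N) where
  Adj u v := (∃ i, nb u i = some (v, true)) ∨ (∃ i, nb v i = some (u, true))
  symm := ⟨fun _ _ h => h.symm⟩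
  loopless := ⟨by
    rintro u (⟨i, h⟩ | ⟨i, h⟩) <;>
    · have := lev_nb h
      omega⟩

lemma sh_le (N : ℕ) : sh N ≤ gr N := by
  rintro u v (⟨i, h⟩ | ⟨i, h⟩)
  · exact Or.inl ⟨i, _, h⟩
  · exact Or.inr ⟨i, _, h⟩

/-- Every nonempty set of vertices contains a vertex with at most `d` neighbours in the set. -/
def Degenerate {V : Type} (G : SimpleGraph V) (d : ℕ) : Prop :=
  ∀ S : Set V, S.Nonempty → ∃ v ∈ S, (S ∩ {u | G.Adj v u}).encard ≤ d

/-- Pandichotomous in `ℝ^k`: every set `Gs` of short edges has a realization. -/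
def Pandichotomous {V : Type} (G : SimpleGraph V) (k : ℕ) : Prop :=
  ∀ Gs : SimpleGraph V, Gs ≤ G → ∃ p : V → EuclideanSpace ℝ (Fin k), Injective p ∧
    ∃ δ : ℝ, 0 < δ ∧ ∀ u v, G.Adj u v → (dist (p u) (p v) ≤ δ ↔ Gs.Adj u v)

lemma colorable (N : ℕ) : (gr N).Colorable 2 := by
  refine ⟨SimpleGraph.Coloring.mk (fun v => (⟨lev v % 2, Nat.mod_lt _ (by norm_num)⟩ : Fin 2)) ?_⟩
  rintro u v (⟨i, b, h⟩ | ⟨i, b, h⟩) <;>
  · have := lev_nb h
    simp only [ne_eq, Fin.mk.injEq]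
    omega

lemma degenerate (N : ℕ) : Degenerate (gr N) 3 := by
  classical
  intro S hS
  obtain ⟨v, hv, hmax⟩ := (S.toFinite).exists_maximalFor lev S hS
  refine ⟨v, hv, ?_⟩
  have hsub : S ∩ {u | (gr N).Adj v u} ⊆
      ((Finset.univ.image (fun i : Fin 3 => ((nb v i).map Prod.fst).getD v) : Finset (V N)) :
        Set (V N)) := by
    rintro u ⟨hu, (⟨i, b, h⟩ | ⟨i, b, h⟩)⟩
    · simp only [Finset.coe_image, Finset.coe_univ, image_univ, mem_range]
      exact ⟨i, by rw [h]; rfl⟩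
    · exfalso
      have h1 := lev_nb h
      have h2 := hmax hu (by omega)
      omega
  refine (Set.encard_le_encard hsub).trans ?_
  rw [Set.encard_coe_eq_coe_finsetCard]
  have := Finset.card_image_le (s := (Finset.univ : Finset (Fin 3)))
    (f := fun i : Fin 3 => ((nb v i).map Prod.fst).getD v)
  rw [Finset.card_univ, Fintype.card_fin] at this
  exact_mod_cast this

lemma not_pan : ∃ N : ℕ, ¬ Pandichotomous (gr N) 2 := by
  obtain ⟨N, hN⟩ := core
  refine ⟨N, fun hpan => ?_⟩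
  obtain ⟨p, -, δ, hδ, hp⟩ := hpan (sh N) (sh_le N)
  have hd : ∀ u v : V N, dist (δ⁻¹ • p u) (δ⁻¹ • p v) ≤ 1 ↔ dist (p u) (p v) ≤ δ := by
    intro u v
    rw [dist_smul₀, Real.norm_of_nonneg (inv_nonneg.2 hδ.le), inv_mul_le_iff₀ hδ, mul_one]
  have hnb : ∀ (u v : V N) (i : Fin 3) (b : Bool), nb u i = some (v, b) →
      (∀ j, nb u j = some (v, true) → b = true) →
      (dist (δ⁻¹ • p u) (δ⁻¹ • p v) ≤ 1 ↔ b = true) := by
    intro u v i b h huniq
    rw [hd, hp u v (Or.inl ⟨i, b, h⟩)]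
    constructor
    · rintro (⟨j, hj⟩ | ⟨j, hj⟩)
      · exact huniq j hj
      · have h1 := lev_nb hj
        have h2 := lev_nb h
        omega
    · intro hb
      rw [hb] at h
      exact Or.inl ⟨i, h⟩
  refine hN (fun x => δ⁻¹ • p (.inl x)) (fun x => δ⁻¹ • p (.inr (.inl x)))
    (fun x => δ⁻¹ • p (.inr (.inr (.inl x)))) (fun x => δ⁻¹ • p (.inr (.inr (.inr x)))) ?_ ?_ ?_
  · intro t ht P i
    refine hnb _ _ i (P i) rfl (fun j hj => ?_)
    simp only [nb, Option.some.injEq, Prod.mk.injEq, Sum.inl.injEq] at hj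
    rw [← ht hj.1]
    exact hj.2
  · intro t ht P i
    refine hnb _ _ i (P i) rfl (fun j hj => ?_)
    simp only [nb, Option.some.injEq, Prod.mk.injEq, Sum.inl.injEq, Sum.inr.injEq] at hj
    rw [← ht hj.1]
    exact hj.2
  · intro t ht P i
    refine hnb _ _ i (P i) rfl (fun j hj => ?_)
    simp only [nb, Option.some.injEq, Prod.mk.injEq, Sum.inl.injEq, Sum.inr.injEq] at hj
    rw [← ht hj.1]
    exact hj.2

/-- The case `d = 3`: some finite bipartite `3`-degenerate graph is not pandichotomous in the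
plane. -/
theorem result : ∃ (V : Type) (_ : Finite V) (G : SimpleGraph V),
    G.Colorable 2 ∧ Degenerate G 3 ∧ ¬ Pandichotomous G 2 := by
  obtain ⟨N, hN⟩ := not_pan
  exact ⟨V N, inferInstance, gr N, colorable N, degenerate N, hN⟩

end Pool.Agent.Results.MP_8dd54d_co.PlaneCase
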